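import Pool.Agent.H304R2.EC.Points
import Pool.Agent.N782.GN.LTa

/-!
# The traces of the curves `y² = x³ + D² x` and `y² = x³ - 11 t² x + 14 t³`

They are isogenous to curves `y² = x³ - D² x`; the equality of the numbers of points of curves with an isogeny of degree two
is shown by elementary sums of quadratic characters.
-/

set_option autoImplicit false

namespace Pool.Agent.J6H29.LTW

open Finset Pool.Agent.H304R2.EC Pool.Agent.H304R2.EC.Pts

variable {p : ℕ} [hF : Fact p.Prime]

/-- the number of the roots of `y² = a` -/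
theorem card_root (h2 : p ≠ 2) (a : ZMod p) :
    (((univ : Finset (ZMod p)).filter fun y => y ^ 2 = a).card : ℤ) = qc p a + 1 := by
  have := quadraticChar_card_sqrts (rc h2) a
  rw [← this]
  congr 2
  ext y
  simp

theorem two_ne (h2 : p ≠ 2) : (2 : ZMod p) ≠ 0 := by
  intro h
  have h1 : ((2 : ℕ) : ZMod p) = 0 := by exact_mod_cast h
  rw [ZMod.natCast_eq_zero_iff] at h1
  exact h2 ((Nat.prime_dvd_prime_iff_eq hF.out Nat.prime_two).1 h1)

/-- sums of `g (v²)` -/
theorem sum_sq (h2 : p ≠ 2) (g : ZMod p → ℤ) : ∑ v : ZMod p, g (v ^ 2) = ∑ w : ZMod p, (qc p w + 1) * g w := by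
  have h1 : ∀ v : ZMod p, g (v ^ 2) = ∑ w : ZMod p, if v ^ 2 = w then g w else 0 := by
    intro v
    rw [sum_ite_eq]
    simp
  rw [sum_congr rfl fun v _ => h1 v, sum_comm]
  refine sum_congr rfl fun w _ => ?_
  rw [← sum_filter, sum_const, nsmul_eq_mul]
  rw [card_root h2 w]

/-- the sum over a quadratic polynomial without double root -/
theorem sum_quad (h2 : p ≠ 2) {d : ZMod p} (hd : d ≠ 0) : ∑ w : ZMod p, qc p (w ^ 2 - d) = -1 := by
  have h20 := two_ne (p := p) h2
  have h1 : ∑ w : ZMod p, (qc p (w ^ 2 - d) + 1) =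
      (((univ : Finset (ZMod p × ZMod p)).filter fun z => z.2 ^ 2 = z.1 ^ 2 - d).card : ℤ) := by
    have e1 : ((univ : Finset (ZMod p × ZMod p)).filter fun z => z.2 ^ 2 = z.1 ^ 2 - d).card =
        ∑ w : ZMod p, ((univ : Finset (ZMod p)).filter fun y => y ^ 2 = w ^ 2 - d).card := by
      rw [card_filter, ← univ_product_univ, sum_product]
      refine sum_congr rfl fun w _ => ?_
      rw [card_filter]
    rw [e1]
    push_cast
    refine sum_congr rfl fun w _ => ?_
    rw [card_root h2]
  have h3 : ((univ : Finset (ZMod p × ZMod p)).filter fun z => z.2 ^ 2 = z.1 ^ 2 - d).card =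
      ((univ : Finset (ZMod p)).erase 0).card := by
    refine Finset.card_bij' (fun z _ => z.1 + z.2) (fun u _ => ((u + d * u⁻¹) * 2⁻¹, (u - d * u⁻¹) * 2⁻¹)) ?_ ?_ ?_ ?_
    · rintro ⟨w, y⟩ h
      simp only [mem_filter, mem_univ, true_and] at h
      rw [mem_erase]
      refine ⟨?_, mem_univ _⟩
      intro h0
      apply hd
      have : d = (w + y) * (w - y) := by linear_combination h
      rw [this, h0, zero_mul]
    · intro u hu
      rw [mem_erase] at hu
      simp only [mem_filter, mem_univ, true_and]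
      have hu0 := hu.1
      field_simp
      ring
    · rintro ⟨w, y⟩ h
      simp only [mem_filter, mem_univ, true_and] at h
      have hd' : d = (w + y) * (w - y) := by linear_combination h
      have h0 : w + y ≠ 0 := by
        intro h0
        apply hd
        rw [hd', h0, zero_mul]
      have e1 : d * (w + y)⁻¹ = w - y := by
        rw [hd']
        field_simp
      simp only [e1, Prod.mk.injEq]
      constructor
      · have : w + y + (w - y) = w * 2 := by ring
        rw [this, mul_assoc, mul_inv_cancel₀ h20, mul_one]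
      · have : w + y - (w - y) = y * 2 := by ring
        rw [this, mul_assoc, mul_inv_cancel₀ h20, mul_one]
    · intro u hu
      simp only
      have : (u + d * u⁻¹) * 2⁻¹ + (u - d * u⁻¹) * 2⁻¹ = u * (2 * 2⁻¹) := by ring
      rw [this, mul_inv_cancel₀ h20, mul_one]
  rw [sum_add_distrib, h3, card_erase_of_mem (mem_univ _), card_univ, ZMod.card] at h1
  rw [sum_const, card_univ, ZMod.card, nsmul_eq_mul, mul_one] at h1
  have hp := hF.out.one_lt
  have h4 : ((p - 1 : ℕ) : ℤ) = (p : ℤ) - 1 := by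
    rw [Nat.cast_sub hp.le]
    simp
  rw [h4] at h1
  linarith

/-- the sum for `y² = x (x² + a x + b)` -/
noncomputable def TS (a b : ZMod p) : ℤ := ∑ x : ZMod p, qc p (x * (x ^ 2 + a * x + b))

/-- the number of the solutions of a quadratic equation -/
theorem card_quad (h2 : p ≠ 2) (β γ : ZMod p) :
    (((univ : Finset (ZMod p)).filter fun x => x ^ 2 + β * x + γ = 0).card : ℤ) = qc p (β ^ 2 - 4 * γ) + 1 := by
  have h20 := two_ne (p := p) h2
  rw [← card_root h2]
  congr 1
  refine Finset.card_bij' (fun x _ => 2 * x + β) (fun y _ => (y - β) * 2⁻¹) ?_ ?_ ?_ ?_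
  · intro x hx
    simp only [mem_filter, mem_univ, true_and] at hx ⊢
    linear_combination 4 * hx
  · intro y hy
    simp only [mem_filter, mem_univ, true_and] at hy ⊢
    have h4 : (4 : ZMod p) ≠ 0 := by
      have : (4 : ZMod p) = 2 * 2 := by norm_num
      rw [this]
      exact mul_ne_zero h20 h20
    field_simp
    linear_combination hy
  · intro x _
    rw [add_sub_cancel_right, mul_comm 2 x, mul_assoc, mul_inv_cancel₀ h20, mul_one]
  · intro y _
    rw [mul_comm (2 : ZMod p), mul_assoc, inv_mul_cancel₀ h20, mul_one, sub_add_cancel]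

/-- **an isogeny of degree two** -/
theorem TS_iso (h2 : p ≠ 2) {a b : ZMod p} (hb : b ≠ 0) : TS a b = TS (-2 * a) (a ^ 2 - 4 * b) := by
  have h20 := two_ne (p := p) h2
  -- the left side
  have e1 : TS a b = ∑ x ∈ (univ : Finset (ZMod p)).erase 0, qc p (x + a + b * x⁻¹) := by
    unfold TS
    rw [← sum_erase (univ : Finset (ZMod p)) (a := 0) (by simp)]
    refine sum_congr rfl fun x hx => ?_
    rw [mem_erase] at hx
    have hx0 := hx.1
    have : x * (x ^ 2 + a * x + b) = x ^ 2 * (x + a + b * x⁻¹) := by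
      field_simp
    rw [this, map_mul, qc_sq hx0, one_mul]
  have e2 : ∑ x ∈ (univ : Finset (ZMod p)).erase 0, (qc p (x + a + b * x⁻¹) + 1) =
      ∑ v : ZMod p, (qc p ((a - v ^ 2) ^ 2 - 4 * b) + 1) := by
    have f1 : ∀ x ∈ (univ : Finset (ZMod p)).erase 0, (qc p (x + a + b * x⁻¹) + 1) =
        ∑ v : ZMod p, if v ^ 2 = x + a + b * x⁻¹ then (1 : ℤ) else 0 := by
      intro x _
      rw [← card_root h2, card_filter]
      push_cast
      rfl
    rw [sum_congr rfl f1, sum_comm]
    refine sum_congr rfl fun v _ => ?_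
    rw [← card_quad h2, card_filter]
    push_cast
    rw [← sum_erase (univ : Finset (ZMod p)) (a := 0)]
    · refine sum_congr rfl fun x hx => ?_
      rw [mem_erase] at hx
      have hx0 := hx.1
      have : v ^ 2 = x + a + b * x⁻¹ ↔ x ^ 2 + (a - v ^ 2) * x + b = 0 := by
        constructor
        · intro h
          rw [h]
          field_simp
          ring
        · intro h
          have h3 : v ^ 2 * x = x ^ 2 + a * x + b := by linear_combination -h
          field_simp
          linear_combination h3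
      simp only [this]
    · simp only [ne_eq, OfNat.ofNat_ne_zero, not_false_eq_true, zero_pow, mul_zero, add_zero, zero_add]
      rw [if_neg hb]
  have e3 : ∑ v : ZMod p, qc p ((a - v ^ 2) ^ 2 - 4 * b) =
      ∑ w : ZMod p, (qc p w + 1) * qc p ((a - w) ^ 2 - 4 * b) :=
    sum_sq h2 (fun w => qc p ((a - w) ^ 2 - 4 * b))
  have e4 : ∑ w : ZMod p, qc p ((a - w) ^ 2 - 4 * b) = -1 := by
    have h4b : 4 * b ≠ 0 := by
      have : (4 : ZMod p) = 2 * 2 := by norm_num
      rw [this]
      exact mul_ne_zero (mul_ne_zero h20 h20) hb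
    rw [← sum_quad h2 h4b]
    exact Fintype.sum_equiv (Equiv.subLeft a) _ _ (fun w => by simp [Equiv.subLeft_apply])
  have e5 : TS (-2 * a) (a ^ 2 - 4 * b) = ∑ w : ZMod p, qc p w * qc p ((a - w) ^ 2 - 4 * b) := by
    unfold TS
    refine sum_congr rfl fun w _ => ?_
    rw [← map_mul]
    congr 1
    ring
  rw [sum_add_distrib, ← e1, sum_add_distrib, e3] at e2
  have e6 : ∑ w : ZMod p, (qc p w + 1) * qc p ((a - w) ^ 2 - 4 * b) = TS (-2 * a) (a ^ 2 - 4 * b) - 1 := by
    rw [e5, sum_congr rfl fun w _ => add_mul (qc p w) 1 _, sum_add_distrib]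
    simp only [one_mul]
    rw [e4]
    ring
  rw [e6, sum_const, sum_const, card_erase_of_mem (mem_univ _), card_univ, ZMod.card] at e2
  have hp := hF.out.one_lt
  have h4 : ((p - 1 : ℕ) : ℤ) = (p : ℤ) - 1 := by
    rw [Nat.cast_sub hp.le]
    simp
  simp only [nsmul_eq_mul, mul_one] at e2
  rw [h4] at e2
  linarith

theorem TS_SS (a : ZMod p) : TS 0 (-a) = SS a := by
  unfold TS SS
  refine sum_congr rfl fun x _ => ?_
  congr 1
  ring

/-- `y² = x³ + D² x` -/
theorem TS_plus (h2 : p ≠ 2) {D : ZMod p} (hD : D ≠ 0) : TS 0 (D ^ 2) = SS ((2 * D) ^ 2) := by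
  rw [TS_iso h2 (pow_ne_zero 2 hD), ← TS_SS]
  congr 1
  · ring
  · ring

/-- `y² = x³ - 11 t² x + 14 t³` -/
theorem TS_order2 (h2 : p ≠ 2) {t : ZMod p} (ht : t ≠ 0) : TS (6 * t) (t ^ 2) = SS (t ^ 2) := by
  have h20 := two_ne (p := p) h2
  have h4 : (4 : ZMod p) ≠ 0 := by
    have : (4 : ZMod p) = 2 * 2 := by norm_num
    rw [this]
    exact mul_ne_zero h20 h20
  rw [TS_iso h2 (pow_ne_zero 2 ht)]
  have e1 : TS (-2 * (6 * t)) ((6 * t) ^ 2 - 4 * t ^ 2) = SS (t ^ 2 * 4 ^ 2) := by
    unfold TS SS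
    refine Fintype.sum_equiv (Equiv.subRight (4 * t)) _ _ (fun x => ?_)
    rw [Equiv.subRight_apply]
    congr 1
    ring
  rw [e1, SS_scale _ _ h4]
  have e2 : (4 : ZMod p) = 2 ^ 2 := by norm_num
  rw [e2, qc_sq h20, one_mul]

end Pool.Agent.J6H29.LTW
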