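import Pool.Agent.J6H29.LTW.Iso

/-!
# The traces of all the curves with `j = 287496` and of `y² = x³ ± D² x`, in terms of the curves `y² = x³ - D² x`
-/

set_option autoImplicit false

namespace Pool.Agent.J6H29.LTW

open Finset Pool.Agent.H304R2.EC Pool.Agent.H304R2.EC.Pts Pool.Agent.N782.GN.LT

/-- the number of the solutions of `y² = x³ + a x + b` modulo `p` -/
def ptsG (a b : ℤ) (p : ℕ) : ℕ :=
  ((range p ×ˢ range p).filter (fun xy : ℕ × ℕ => (p : ℤ) ∣ (xy.2 : ℤ) ^ 2 - ((xy.1 : ℤ) ^ 3 + a * xy.1 + b))).card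

section
variable {p : ℕ} [hF : Fact p.Prime]

theorem ptsG_eq (h2 : p ≠ 2) (a b : ℤ) :
    ((ptsG a b p : ℕ) : ℤ) = p + ∑ x : ZMod p, qc p (x ^ 3 + (a : ZMod p) * x + (b : ZMod p)) := by
  have hcard : ((ptsG a b p : ℕ) : ℤ) = ∑ x : ZMod p,
      (((univ : Finset (ZMod p)).filter fun y => y ^ 2 = x ^ 3 + (a : ZMod p) * x + (b : ZMod p)).card : ℤ) := by
    unfold ptsG
    rw [← Nat.cast_sum, ← Finset.card_sigma]
    congr 1
    refine Finset.card_bij' (fun xy _ => (⟨(xy.1 : ZMod p), (xy.2 : ZMod p)⟩ : Σ _ : ZMod p, ZMod p))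
      (fun q _ => (q.1.val, q.2.val)) ?_ ?_ ?_ ?_
    · rintro ⟨x, y⟩ h
      simp only [mem_filter, mem_product, mem_range] at h
      simp only [mem_sigma, mem_univ, mem_filter, true_and]
      obtain ⟨_, h⟩ := h
      rw [← ZMod.intCast_zmod_eq_zero_iff_dvd] at h
      push_cast at h
      linear_combination h
    · rintro ⟨x, y⟩ h
      simp only [mem_sigma, mem_univ, mem_filter, true_and] at h
      simp only [mem_filter, mem_product, mem_range]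
      refine ⟨⟨ZMod.val_lt _, ZMod.val_lt _⟩, ?_⟩
      rw [← ZMod.intCast_zmod_eq_zero_iff_dvd]
      push_cast
      simp only [ZMod.natCast_val, ZMod.cast_id', id_eq]
      linear_combination h
    · rintro ⟨x, y⟩ h
      simp only [mem_filter, mem_product, mem_range] at h
      simp only [Prod.mk.injEq]
      exact ⟨ZMod.val_cast_of_lt h.1.1, ZMod.val_cast_of_lt h.1.2⟩
    · rintro ⟨x, y⟩ h
      simp
  rw [hcard, sum_congr rfl fun x _ => card_root h2 _, sum_add_distrib, sum_const, card_univ, ZMod.card]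
  simp only [nsmul_eq_mul, mul_one]
  ring

theorem cast_ne {n : ℤ} (h : ¬ (p : ℤ) ∣ n) : (n : ZMod p) ≠ 0 := by
  rw [Ne, ZMod.intCast_zmod_eq_zero_iff_dvd]
  exact h

/-- `y² = x³ - D² x` -/
theorem trG_minus (h2 : p ≠ 2) (D : ℕ) : (p : ℤ) - ptsG (-(D : ℤ) ^ 2) 0 p = tr D p := by
  rw [tr_eq_SS D h2, ptsG_eq h2]
  unfold SS
  have : ∀ x : ZMod p, x ^ 3 + ((-(D : ℤ) ^ 2 : ℤ) : ZMod p) * x + ((0 : ℤ) : ZMod p) =
      x * (x ^ 2 - (D : ZMod p) ^ 2) := by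
    intro x
    push_cast
    ring
  simp_rw [this]
  ring

/-- `y² = x³ + D² x` -/
theorem trG_plus (h2 : p ≠ 2) (D : ℕ) (hD : ¬ p ∣ D) : (p : ℤ) - ptsG ((D : ℤ) ^ 2) 0 p = tr (2 * D) p := by
  have hD0 : (D : ZMod p) ≠ 0 := by
    rw [Ne, ZMod.natCast_eq_zero_iff]
    exact hD
  rw [tr_eq_SS (2 * D) h2, ptsG_eq h2]
  have e1 : (((2 * D : ℕ) : ZMod p)) = 2 * (D : ZMod p) := by push_cast; ring
  rw [e1, ← TS_plus h2 hD0]
  unfold TS
  have : ∀ x : ZMod p, x ^ 3 + (((D : ℤ) ^ 2 : ℤ) : ZMod p) * x + ((0 : ℤ) : ZMod p) =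
      x * (x ^ 2 + 0 * x + (D : ZMod p) ^ 2) := by
    intro x
    push_cast
    ring
  simp_rw [this]
  ring

/-- `y² = x³ - 11 t² x + 14 t³` -/
theorem trG_order2 (h2 : p ≠ 2) (t : ℤ) (ht : ¬ (p : ℤ) ∣ t) :
    (p : ℤ) - ptsG (-11 * t ^ 2) (14 * t ^ 3) p = tr t.natAbs p := by
  have ht0 := cast_ne (p := p) ht
  rw [tr_eq_SS t.natAbs h2, ptsG_eq h2]
  have e1 : (((t.natAbs : ℕ) : ZMod p)) ^ 2 = (t : ZMod p) ^ 2 := by
    rcases Int.natAbs_eq t with h | h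
    · have h3 : (t : ZMod p) = ((t.natAbs : ℕ) : ZMod p) := by
        rw [← Int.cast_natCast (R := ZMod p), ← h]
      rw [h3]
    · have h3 : (t : ZMod p) = - ((t.natAbs : ℕ) : ZMod p) := by
        rw [← Int.cast_natCast (R := ZMod p), ← Int.cast_neg, ← h]
      rw [h3, neg_sq]
  rw [e1, ← TS_order2 h2 ht0]
  unfold TS
  have e2 : ∑ x : ZMod p, qc p (x ^ 3 + ((-11 * t ^ 2 : ℤ) : ZMod p) * x + ((14 * t ^ 3 : ℤ) : ZMod p)) =
      ∑ x : ZMod p, qc p (x * (x ^ 2 + 6 * (t : ZMod p) * x + (t : ZMod p) ^ 2)) := by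
    refine Fintype.sum_equiv (Equiv.subRight (2 * (t : ZMod p))) _ _ (fun x => ?_)
    rw [Equiv.subRight_apply]
    congr 1
    push_cast
    ring
  rw [e2]
  ring

end

/-- the curves: `j = 287496`, or `y² = x³ ± D² x` -/
def Cov (a b : ℤ) : Prop := 4 * a ^ 3 + 27 * b ^ 2 ≠ 0 ∧
  ((b = 0 ∧ IsSquare |a|) ∨ 1728 * (4 * a ^ 3) = 287496 * (4 * a ^ 3 + 27 * b ^ 2))

/-- the number `D` for which the curve is isogenous to `y² = x³ - D² x` -/
def twist (a b : ℤ) : ℕ :=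
  if b = 0 then (if a < 0 then Nat.sqrt a.natAbs else 2 * Nat.sqrt a.natAbs) else Nat.sqrt (a.natAbs / 11)

/-- the three cases -/
theorem Cov.cases {a b : ℤ} (h : Cov a b) :
    (∃ D : ℕ, 1 ≤ D ∧ a = -(D : ℤ) ^ 2 ∧ b = 0 ∧ twist a b = D) ∨
    (∃ D : ℕ, 1 ≤ D ∧ a = (D : ℤ) ^ 2 ∧ b = 0 ∧ twist a b = 2 * D) ∨
    (∃ t : ℤ, t ≠ 0 ∧ a = -11 * t ^ 2 ∧ b = 14 * t ^ 3 ∧ twist a b = t.natAbs) := by
  obtain ⟨h0, h⟩ := h
  rcases h with ⟨hb, c, hc⟩ | h
  · subst hb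
    have ha0 : a ≠ 0 := by
      rintro rfl
      exact h0 (by norm_num)
    have hc0 : c ≠ 0 := by
      rintro rfl
      exact ha0 (by simpa using hc)
    have hna : a.natAbs = c.natAbs * c.natAbs := by
      rw [← Int.natAbs_mul, ← hc, Int.natAbs_abs]
    have hsq : ((c.natAbs : ℕ) : ℤ) ^ 2 = |a| := by
      rw [Int.natCast_natAbs, sq_abs, hc]
      ring
    have hc1 : 1 ≤ c.natAbs := by omega
    rcases lt_or_gt_of_ne ha0 with hneg | hpos
    · left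
      refine ⟨c.natAbs, hc1, ?_, rfl, ?_⟩
      · rw [hsq, abs_of_neg hneg]
        ring
      · unfold twist
        rw [if_pos rfl, if_pos hneg, hna, Nat.sqrt_eq]
    · right
      left
      refine ⟨c.natAbs, hc1, ?_, rfl, ?_⟩
      · rw [hsq, abs_of_pos hpos]
      · unfold twist
        rw [if_pos rfl, if_neg (by omega), hna, Nat.sqrt_eq]
  · right
    right
    -- `196 a³ = - 1331 b²`
    have h1 : 196 * a ^ 3 = -1331 * b ^ 2 := by linarith
    have ha0 : a ≠ 0 := by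
      rintro rfl
      have : b = 0 := by
        have h2 : b ^ 2 = 0 := by linarith
        exact pow_eq_zero_iff (two_ne_zero) |>.1 h2
      subst this
      exact h0 (by norm_num)
    have hb0 : b ≠ 0 := by
      rintro rfl
      have : a ^ 3 = 0 := by linarith
      exact ha0 (pow_eq_zero_iff (three_ne_zero) |>.1 this)
    -- `11 ∣ a`
    have h11 : Prime (11 : ℤ) := by
      have := Nat.prime_iff_prime_int.1 (show Nat.Prime 11 by norm_num)
      exact_mod_cast this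
    have h7 : Prime (7 : ℤ) := by
      have := Nat.prime_iff_prime_int.1 (show Nat.Prime 7 by norm_num)
      exact_mod_cast this
    obtain ⟨a₁, ha₁⟩ : (11 : ℤ) ∣ a := by
      have h2 : (11 : ℤ) ∣ 196 * a ^ 3 := by
        rw [h1]
        exact ⟨-121 * b ^ 2, by ring⟩
      rcases h11.dvd_or_dvd h2 with h3 | h3
      · exfalso
        norm_num at h3
      · exact h11.dvd_of_dvd_pow h3
    -- `196 a₁³ = - b²`
    have h2 : 196 * a₁ ^ 3 = - b ^ 2 := by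
      rw [ha₁] at h1
      have : 1331 * (196 * a₁ ^ 3) = 1331 * (- b ^ 2) := by linarith
      exact mul_left_cancel₀ (by norm_num) this
    -- `14 ∣ b`
    obtain ⟨b₁, hb₁⟩ : (14 : ℤ) ∣ b := by
      have h3 : (14 : ℤ) ^ 2 ∣ b ^ 2 := ⟨-a₁ ^ 3, by linarith⟩
      exact (Int.pow_dvd_pow_iff (by norm_num)).1 h3
    have h3 : a₁ ^ 3 = - b₁ ^ 2 := by
      rw [hb₁] at h2
      have : 196 * a₁ ^ 3 = 196 * (- b₁ ^ 2) := by linarith
      exact mul_left_cancel₀ (by norm_num) this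
    have ha₁0 : a₁ ≠ 0 := by
      rintro rfl
      exact ha0 (by rw [ha₁]; norm_num)
    -- `a₁ ∣ b₁`, with `t = - b₁ / a₁`
    obtain ⟨t, ht⟩ : a₁ ∣ b₁ := by
      have h4 : a₁ ^ 2 ∣ b₁ ^ 2 := ⟨-a₁, by linarith⟩
      exact (Int.pow_dvd_pow_iff (by norm_num)).1 h4
    have h5 : a₁ = - t ^ 2 := by
      rw [ht] at h3
      have : a₁ ^ 2 * a₁ = a₁ ^ 2 * (- t ^ 2) := by linarith
      exact mul_left_cancel₀ (pow_ne_zero 2 ha₁0) this
    have ht0 : t ≠ 0 := by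
      rintro rfl
      exact ha₁0 (by rw [h5]; norm_num)
    have ea : a = -11 * (-t) ^ 2 := by
      rw [ha₁, h5]
      ring
    have eb : b = 14 * (-t) ^ 3 := by
      rw [hb₁, ht, h5]
      ring
    refine ⟨-t, neg_ne_zero.2 ht0, ea, eb, ?_⟩
    unfold twist
    rw [if_neg hb0]
    have e1 : a.natAbs / 11 = t.natAbs * t.natAbs := by
      have e2 : a.natAbs = 11 * (t.natAbs * t.natAbs) := by
        rw [ea, Int.natAbs_mul, Int.natAbs_pow, Int.natAbs_neg]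
        norm_num
        ring
      rw [e2, Nat.mul_div_cancel_left _ (by norm_num)]
    rw [e1, Nat.sqrt_eq, Int.natAbs_neg]

theorem Cov.one_le {a b : ℤ} (h : Cov a b) : 1 ≤ twist a b := by
  rcases h.cases with ⟨D, hD, -, -, h⟩ | ⟨D, hD, -, -, h⟩ | ⟨t, ht, -, -, h⟩
  · omega
  · omega
  · omega

/-- the primes of bad reduction -/
theorem Cov.bad_iff {a b : ℤ} (h : Cov a b) {p : ℕ} (hp : p.Prime) :
    (p : ℤ) ∣ 2 * (4 * a ^ 3 + 27 * b ^ 2) ↔ p ∣ 2 * twist a b := by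
  have hpz : Prime (p : ℤ) := Nat.prime_iff_prime_int.1 hp
  have h2 : (p : ℤ) ∣ 2 ↔ p ∣ 2 := by
    constructor
    · intro h
      exact_mod_cast h
    · intro h
      exact_mod_cast h
  have key : ∀ (k m : ℕ) (n : ℤ), (2 : ℤ) * n = 2 ^ (k + 1) * m ^ 6 ∨ (2 : ℤ) * n = -(2 ^ (k + 1) * m ^ 6) →
      ((p : ℤ) ∣ 2 * n ↔ p ∣ 2 * m) := by
    intro k m n hn
    have e1 : (p : ℤ) ∣ 2 * n ↔ (p : ℤ) ∣ 2 ^ (k + 1) * m ^ 6 := by
      rcases hn with hn | hn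
      · rw [hn]
      · rw [hn, dvd_neg]
    rw [e1]
    have e2 : (p : ℤ) ∣ (2 : ℤ) ^ (k + 1) * (m : ℤ) ^ 6 ↔ p ∣ 2 ^ (k + 1) * m ^ 6 := by
      rw [← Int.natCast_dvd_natCast]
      push_cast
      rfl
    rw [e2, hp.dvd_mul, hp.dvd_mul]
    constructor
    · rintro (h | h)
      · exact Or.inl (hp.dvd_of_dvd_pow h)
      · exact Or.inr (hp.dvd_of_dvd_pow h)
    · rintro (h | h)
      · exact Or.inl (dvd_pow h (by omega))
      · exact Or.inr (dvd_pow h (by norm_num))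
  rcases h.cases with ⟨D, hD, ea, eb, h⟩ | ⟨D, hD, ea, eb, h⟩ | ⟨t, ht, ea, eb, h⟩
  · rw [h]
    apply key 2 D
    right
    rw [ea, eb]
    ring
  · rw [h]
    have e3 : p ∣ 2 * (2 * D) ↔ p ∣ 2 * D := by
      rw [hp.dvd_mul, hp.dvd_mul]
      tauto
    rw [e3]
    apply key 2 D
    left
    rw [ea, eb]
    ring
  · rw [h]
    apply key 5 t.natAbs
    right
    have e3 : ((t.natAbs : ℕ) : ℤ) ^ 6 = t ^ 6 := by
      have : ((t.natAbs : ℤ)) ^ 2 = t ^ 2 := by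
        rw [Int.natCast_natAbs, sq_abs]
      calc ((t.natAbs : ℕ) : ℤ) ^ 6 = (((t.natAbs : ℕ) : ℤ) ^ 2) ^ 3 := by ring
        _ = (t ^ 2) ^ 3 := by rw [this]
        _ = t ^ 6 := by ring
    rw [e3, ea, eb]
    ring

/-- **the traces** -/
theorem Cov.trace {a b : ℤ} (h : Cov a b) {p : ℕ} (hp : p.Prime) (hg : ¬ p ∣ 2 * twist a b) :
    (p : ℤ) - ptsG a b p = tr (twist a b) p := by
  have : Fact p.Prime := ⟨hp⟩
  have h2 : p ≠ 2 := by
    rintro rfl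
    exact hg (dvd_mul_right 2 _)
  rcases h.cases with ⟨D, hD, ea, eb, h⟩ | ⟨D, hD, ea, eb, h⟩ | ⟨t, ht, ea, eb, h⟩
  · rw [h, ea, eb]
    exact trG_minus h2 D
  · rw [h] at hg
    rw [h, ea, eb]
    exact trG_plus h2 D (fun hd => hg (Dvd.dvd.mul_left (Dvd.dvd.mul_left hd 2) 2))
  · rw [h] at hg
    rw [h, ea, eb]
    refine trG_order2 h2 t (fun hd => hg (Dvd.dvd.mul_left ?_ 2))
    exact Int.natCast_dvd.1 hd

end Pool.Agent.J6H29.LTW
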